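import Pool.Agent.helper47.MSW.SpecA
import Pool.Agent.helper47.MSW.SpecC

/-!
# msw:SWU (MP_a87880_co): the upper bound for a swap
-/

set_option autoImplicit false

namespace Pool.Agent.MSW

open Equiv Finset Function MeasureTheory Pool.Agent.helper48.PP
open Pool.Agent.DSW (Pr Has GP wt)
open scoped ENNReal Classical

noncomputable section

lemma SWU_pt (hHLA : HLA_stmt) (hHMN : HMN_stmt) (hSPT : SPT_stmt) (hQSM : QSM_stmt)
    (hIN2 : IN2_stmt) (hBX2 : BX2_stmt) (hTRL : TRL_stmt) (hRFB : RFB_stmt) {d : ℝ} (hd0 : 0 ≤ d)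
    (hd1 : d ≤ 1) (X Y : List Pat) (hY : ∀ b ∈ Y, RC b) (w : Pt) :
    Pm d {ω | HL (X ++ [sw true] ++ Y) ω 0 w} ≤ Pm d {ω | HL (X ++ [sw false] ++ Y) ω 0 w} +
      ∑' r : (Pt × Pt) × (Pt × Pt),
        if (r.1.1 ≤ r.1.2 ∧ r.1.2 ≤ w) ∧ (r.2.1 ≤ r.2.2 ∧ r.2.2 ≤ w) ∧ r.1 ≠ r.2 then
          Pm d {ω | mnU X ω r.1.1 ∧ mnU X ω r.2.1} *
            Pm d {ω | mnU Y.reverse ω (w - r.1.2) ∧ mnU Y.reverse ω (w - r.2.2)} *
            Pm d {ω | HL [sw true] ω 0 (r.1.2 - r.1.1)} else 0 := by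
  obtain ⟨q1, q2, -, -⟩ := hQSM d X Y w hd0 hd1
  have hsub : {ω | HL (X ++ [sw true] ++ Y) ω 0 w} ⊆
      (⋃ pq : Pt × Pt, ({ω | Qe X Y ω w pq.1 pq.2} ∩ {ω | HL [sw true] ω pq.1 pq.2})) ∪
      ⋃ r : (Pt × Pt) × (Pt × Pt),
        (if (r.1.1 ≤ r.1.2 ∧ r.1.2 ≤ w) ∧ (r.2.1 ≤ r.2.2 ∧ r.2.2 ≤ w) ∧ r.1 ≠ r.2 then
          ({ω | mnU X ω r.1.1 ∧ mnU X ω r.2.1} ∩ {ω | mxV Y ω w r.1.2 ∧ mxV Y ω w r.2.2} ∩
            {ω | HL [sw true] ω r.1.1 r.1.2}) else (∅ : Set Om)) := by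
    intro ω hω
    obtain ⟨p, q, hp, hq, hpq⟩ := (hSPT.1 X [sw true] Y ω w).mp hω
    have hle : p ≤ q := hHLA.1 _ _ _ _ hpq
    have hqw : q ≤ w := hHMN.2.2.2.2.1 Y ω w q hq
    by_cases hQ : Qe X Y ω w p q
    · left
      exact Set.mem_iUnion.mpr ⟨(p, q), hQ, hpq⟩
    · right
      have hex : ∃ p' q', mnU X ω p' ∧ mxV Y ω w q' ∧ p' ≤ q' ∧ ¬ (p' = p ∧ q' = q) := by
        by_contra hcon
        push Not at hcon
        apply hQ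
        refine ⟨hp, hq, hle, fun p' q' h1 h2 h3 => ?_⟩
        by_contra h4
        exact h4 ⟨by_contra fun h5 => h4 (by
          have := hcon p' q' h1 h2 h3
          tauto), by_contra fun h5 => h4 (by
          have := hcon p' q' h1 h2 h3
          tauto)⟩
      obtain ⟨p', q', h1, h2, h3, h4⟩ := hex
      have hqw' : q' ≤ w := hHMN.2.2.2.2.1 Y ω w q' h2
      refine Set.mem_iUnion.mpr ⟨((p, q), (p', q')), ?_⟩
      rw [if_pos]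
      · exact ⟨⟨⟨hp, h1⟩, ⟨hq, h2⟩⟩, hpq⟩
      · refine ⟨⟨hle, hqw⟩, ⟨h3, hqw'⟩, ?_⟩
        intro h5
        apply h4
        simp only [Prod.mk.injEq] at h5
        exact ⟨h5.1.symm, h5.2.symm⟩
  refine (measure_mono hsub).trans ((measure_union_le _ _).trans ?_)
  refine add_le_add ?_ ?_
  · refine (measure_iUnion_le _).trans ?_
    refine le_trans (le_of_eq (tsum_congr fun pq => ?_)) (q1 [sw false])
    rw [q2 [sw true] pq.1 pq.2, q2 [sw false] pq.1 pq.2, hBX2 d pq.1 pq.2 hd0 hd1]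
  · refine (measure_iUnion_le _).trans (le_of_eq (tsum_congr fun r => ?_))
    split_ifs with hc
    · obtain ⟨⟨c1, c2⟩, ⟨c3, c4⟩, -⟩ := hc
      rw [hIN2 d X Y w r.1.1 r.1.2 r.2.1 r.2.2 _ hd0 hd1 c1 c2 c3 c4 (hHLA.2.2.2.1 _ _ _),
        hRFB Y hY d hd0 hd1 w r.1.2 r.2.2 c2 c4]
      have h1 : r.1.1 + (r.1.2 - r.1.1) = r.1.2 := add_tsub_cancel_of_le c1
      have h2 := hTRL.2 [sw true] d r.1.1 (r.1.2 - r.1.1) hd0 hd1
      rw [h1] at h2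
      rw [h2]
    · exact measure_empty

lemma SWU_prod (f : ℕ → ℝ≥0∞) : ∑' s : Pt, f s.1 * f s.2 = (∑' j, f j) * ∑' j, f j := by
  have h := ENNReal.tsum_prod (f := fun a b : ℕ => f a * f b)
  refine h.trans ?_
  simp_rw [ENNReal.tsum_mul_left, ENNReal.tsum_mul_right]

lemma SWU_fac (hHLA : HLA_stmt) (hCNT : CNT_stmt) (hGEM : GEM_stmt) {θ : ℝ} {H : ℕ} (hθ0 : 0 ≤ θ)
    (hH : 1 ≤ H) (hd1 : den θ H ≤ 1) :
    (((H : ℝ≥0∞) + 1) ^ 2)⁻¹ *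
      (∑' s : Pt, ta H ^ nm s * Pm (den θ H) {ω | HL [sw true] ω 0 s}) ≤
      ENNReal.ofReal (1024 * θ ^ 2) := by
  have hd0 : 0 ≤ den θ H := by
    unfold den
    positivity
  have hH1 : (1 : ℝ) ≤ H := by exact_mod_cast hH
  have h1 : ∀ s : Pt, ta H ^ nm s * Pm (den θ H) {ω | HL [sw true] ω 0 s} ≤
      ENNReal.ofReal (den θ H) ^ 2 * ((ta H ^ s.1 * ((s.1.choose 2 : ℕ) : ℝ≥0∞)) *
        (ta H ^ s.2 * ((s.2.choose 2 : ℕ) : ℝ≥0∞))) := by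
    intro s
    have h2 : {ω | HL [sw true] ω 0 s} = {ω | HP (sw true).2 ω 0 s} := by
      ext ω
      exact hHLA.2.2.2.2.2.2 (sw true) ω 0 s
    have h3 := hCNT 2 (sw true).2 s (den θ H) hd0 hd1
    rw [h2]
    calc ta H ^ nm s * Pm (den θ H) {ω | HP (sw true).2 ω 0 s}
        ≤ ta H ^ nm s * (ENNReal.ofReal (den θ H) ^ 2 * (s.1.choose 2 : ℝ≥0∞) *
          (s.2.choose 2 : ℝ≥0∞)) := mul_le_mul_right h3 _
      _ = ENNReal.ofReal (den θ H) ^ 2 * ((ta H ^ s.1 * ((s.1.choose 2 : ℕ) : ℝ≥0∞)) *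
        (ta H ^ s.2 * ((s.2.choose 2 : ℕ) : ℝ≥0∞))) := by
          unfold nm
          rw [pow_add]
          ring
  have h4 : ∑' s : Pt, ta H ^ nm s * Pm (den θ H) {ω | HL [sw true] ω 0 s} ≤
      ENNReal.ofReal (den θ H) ^ 2 * ((2 * ((H : ℝ≥0∞) + 1)) ^ 3 * (2 * ((H : ℝ≥0∞) + 1)) ^ 3) := by
    calc ∑' s : Pt, ta H ^ nm s * Pm (den θ H) {ω | HL [sw true] ω 0 s}
        ≤ ∑' s : Pt, ENNReal.ofReal (den θ H) ^ 2 * ((ta H ^ s.1 * ((s.1.choose 2 : ℕ) : ℝ≥0∞)) *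
          (ta H ^ s.2 * ((s.2.choose 2 : ℕ) : ℝ≥0∞))) := ENNReal.tsum_le_tsum h1
      _ = ENNReal.ofReal (den θ H) ^ 2 * ((∑' j : ℕ, ta H ^ j * ((j.choose 2 : ℕ) : ℝ≥0∞)) *
          ∑' j : ℕ, ta H ^ j * ((j.choose 2 : ℕ) : ℝ≥0∞)) := by
          rw [ENNReal.tsum_mul_left, SWU_prod (fun j => ta H ^ j * ((j.choose 2 : ℕ) : ℝ≥0∞))]
      _ ≤ _ := by
          have h5 := (hGEM H 2 hH).2
          gcongr
  have hcast : (H : ℝ≥0∞) + 1 = ENNReal.ofReal ((H : ℝ) + 1) := by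
    rw [ENNReal.ofReal_add (by positivity) zero_le_one, ENNReal.ofReal_natCast, ENNReal.ofReal_one]
  calc (((H : ℝ≥0∞) + 1) ^ 2)⁻¹ *
      (∑' s : Pt, ta H ^ nm s * Pm (den θ H) {ω | HL [sw true] ω 0 s})
      ≤ (((H : ℝ≥0∞) + 1) ^ 2)⁻¹ * (ENNReal.ofReal (den θ H) ^ 2 *
        ((2 * ((H : ℝ≥0∞) + 1)) ^ 3 * (2 * ((H : ℝ≥0∞) + 1)) ^ 3)) := mul_le_mul_right h4 _
    _ = ENNReal.ofReal ((((H : ℝ) + 1) ^ 2)⁻¹ * ((den θ H) ^ 2 *
        ((2 * ((H : ℝ) + 1)) ^ 3 * (2 * ((H : ℝ) + 1)) ^ 3))) := by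
        rw [hcast, ENNReal.ofReal_mul (by positivity), ENNReal.ofReal_mul (by positivity),
          ENNReal.ofReal_mul (by positivity), ENNReal.ofReal_inv_of_pos (by positivity),
          ENNReal.ofReal_pow (by positivity), ENNReal.ofReal_pow hd0,
          ENNReal.ofReal_pow (by positivity), ENNReal.ofReal_mul (p := 2) (by norm_num)]
        norm_num
    _ ≤ ENNReal.ofReal (1024 * θ ^ 2) := by
        apply ENNReal.ofReal_le_ofReal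
        have e1 : (((H : ℝ) + 1) ^ 2)⁻¹ * ((den θ H) ^ 2 *
            ((2 * ((H : ℝ) + 1)) ^ 3 * (2 * ((H : ℝ) + 1)) ^ 3)) =
            64 * (den θ H) ^ 2 * ((H : ℝ) + 1) ^ 4 := by
          field_simp
          ring
        have e2 : ((H : ℝ) + 1) ^ 4 ≤ (2 * (H : ℝ)) ^ 4 :=
          pow_le_pow_left₀ (by positivity) (by linarith) 4
        have e3 : 64 * (den θ H) ^ 2 * (2 * (H : ℝ)) ^ 4 = 1024 * θ ^ 2 := by
          unfold den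
          field_simp
          ring
        rw [e1, ← e3]
        exact mul_le_mul_of_nonneg_left e2 (by positivity)

theorem SWU (hHLA : HLA_stmt) (hHMN : HMN_stmt) (hSPT : SPT_stmt) (hQSM : QSM_stmt) (hIN2 : IN2_stmt) (hBX2 : BX2_stmt) (hTRL : TRL_stmt) (hRFB : RFB_stmt) (hTSE : TSE_stmt) (hCNT : CNT_stmt) (hGEM : GEM_stmt) : SWU_stmt := by
  intro θ H X Y hθ0 hθ1 hH hY
  have hH1 : (1 : ℝ) ≤ H := by exact_mod_cast hH
  have hd0 : 0 ≤ den θ H := by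
    unfold den
    positivity
  have hd1 : den θ H ≤ 1 := by
    unfold den
    rw [div_le_one (by positivity)]
    nlinarith
  have hpt := fun w => SWU_pt hHLA hHMN hSPT hQSM hIN2 hBX2 hTRL hRFB hd0 hd1 X Y hY w
  have htse := hTSE H (fun p p' => Pm (den θ H) {ω | mnU X ω p ∧ mnU X ω p'})
    (fun t t' => Pm (den θ H) {ω | mnU Y.reverse ω t ∧ mnU Y.reverse ω t'})
    (fun s => Pm (den θ H) {ω | HL [sw true] ω 0 s}) hH
  have hfac := SWU_fac hHLA hCNT hGEM hθ0 hH hd1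
  have hS1 : ∀ X : List Pat, S1 H (fun p p' => Pm (den θ H) {ω | mnU X ω p ∧ mnU X ω p'}) =
      A1 H (den θ H) X := by
    intro X
    unfold S1 A1
    refine tsum_congr fun p => ?_
    simp only [and_self]
  have hS2 : ∀ X : List Pat, S2 H (fun p p' => Pm (den θ H) {ω | mnU X ω p ∧ mnU X ω p'}) =
      A2 H (den θ H) X := fun X => rfl
  rw [hS1, hS1, hS2, hS2] at htse
  unfold Z
  calc ∑' w : Pt, wt H w.1 * wt H w.2 * Pm (den θ H) {ω | HL (X ++ [sw true] ++ Y) ω 0 w}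
      ≤ ∑' w : Pt, (wt H w.1 * wt H w.2 * Pm (den θ H) {ω | HL (X ++ [sw false] ++ Y) ω 0 w} +
        wt H w.1 * wt H w.2 * ∑' r : (Pt × Pt) × (Pt × Pt),
        if (r.1.1 ≤ r.1.2 ∧ r.1.2 ≤ w) ∧ (r.2.1 ≤ r.2.2 ∧ r.2.2 ≤ w) ∧ r.1 ≠ r.2 then
          Pm (den θ H) {ω | mnU X ω r.1.1 ∧ mnU X ω r.2.1} *
            Pm (den θ H) {ω | mnU Y.reverse ω (w - r.1.2) ∧ mnU Y.reverse ω (w - r.2.2)} *
            Pm (den θ H) {ω | HL [sw true] ω 0 (r.1.2 - r.1.1)} else 0) := by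
        refine ENNReal.tsum_le_tsum fun w => ?_
        rw [← mul_add]
        exact mul_le_mul_right (hpt w) _
    _ ≤ _ := by
        rw [ENNReal.tsum_add]
        refine add_le_add le_rfl (htse.trans ?_)
        unfold ER
        exact mul_le_mul_left hfac _

end

end Pool.Agent.MSW
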